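import Pool.Agent.T6.H59.LC.Num

/-!
# MP_7580b0_co: a linear lower bound for `NE_4(n)`, for every order `n`

Casselgren and Pham conjectured that there is `γ > 0` with `NE_4(n) ≥ γ n` for every `n ≥ 5`: every
`4`-dimensional Latin hypercuboid of order `n` and height `k < γ n` can be extended by one layer.
We prove it.  (It was known for even `n`.)

A new layer is a Latin cube of order `n` which avoids, in every cell, the at most `k` symbols which
are already used above this cell.  We take an explicit Latin cube `L(x,s) = L(y,z)` with very many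
small trades, permute its coordinates at random and exchange disjoint trades to remove all
conflicts.
-/

set_option autoImplicit false

namespace Pool.Agent.Results.MP_7580b0_co.LinearLowerBound

open Function Finset Pool.Agent.T6.H59.LC

/-- `H ∈ LHC(d + 1, n, k)`: a map `H : [n]^d × [k] → [n]` such that no symbol occurs twice on a line
(the lines in the `d` full directions, and the lines in the last direction). -/
def IsLHC (d n k : ℕ) (H : (Fin d → Fin n) → Fin k → Fin n) : Prop :=
  (∀ (i : Fin d) (x : Fin d → Fin n) (t : Fin k),
    Injective (fun a : Fin n => H (update x i a) t)) ∧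
  ∀ x : Fin d → Fin n, Injective (H x)

/-- one more layer can be added to `H` -/
def Extendible (d n k : ℕ) (H : (Fin d → Fin n) → Fin k → Fin n) : Prop :=
  ∃ H' : (Fin d → Fin n) → Fin (k + 1) → Fin n, IsLHC d n (k + 1) H' ∧
    ∀ (x : Fin d → Fin n) (t : Fin k), H' x t.castSucc = H x t

/-- some hypercuboid in `LHC(4, n, k)`, `1 ≤ k < n`, is not extendible -/
def NonExt4 (n k : ℕ) : Prop :=
  1 ≤ k ∧ k < n ∧ ∃ H : (Fin 3 → Fin n) → Fin k → Fin n, IsLHC 3 n k H ∧ ¬ Extendible 3 n k H

theorem extend_of_cube {n k : ℕ} {X : Type} [Fintype X] [DecidableEq X] (hX : Fintype.card X = n)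
    (hc : ∀ F : Finset (Fin 4 → X), Sparse F k → ∃ L : Set (Fin 4 → X), IsCube L ∧ ∀ q ∈ L, q ∉ F)
    (H : (Fin 3 → Fin n) → Fin k → Fin n) (hH : IsLHC 3 n k H) : Extendible 3 n k H := by
  classical
  let e : X ≃ Fin n := Fintype.equivFinOfCardEq hX
  let F : Finset (Fin 4 → X) := univ.filter (fun q => ∃ t,
    H (fun i : Fin 3 => e (q i.castSucc)) t = e (q (Fin.last 3)))
  have hF : Sparse F k := by
    intro i t
    have hch : ∀ a : {a : X // update t i a ∈ F}, ∃ s : Fin k,
        H (fun j : Fin 3 => e (update t i a.1 j.castSucc)) s = e (update t i a.1 (Fin.last 3)) :=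
      fun a => (mem_filter.1 a.2).2
    choose f hf using hch
    have hinj : Injective f := by
      rintro a b hab
      have ha := hf a
      have hb := hf b
      rw [← hab] at hb
      induction i using Fin.lastCases with
      | last =>
        simp only [update_self] at ha hb
        have h1 : (fun j : Fin 3 => e (update t (Fin.last 3) a.1 j.castSucc)) =
            (fun j : Fin 3 => e (update t (Fin.last 3) b.1 j.castSucc)) := by
          funext j
          rw [update_of_ne (Fin.castSucc_lt_last j).ne, update_of_ne (Fin.castSucc_lt_last j).ne]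
        rw [h1] at ha
        exact Subtype.ext (e.injective (ha.symm.trans hb))
      | cast i =>
        have h1 : ∀ c : X, (fun j : Fin 3 => e (update t i.castSucc c j.castSucc)) =
            update (fun j : Fin 3 => e (t j.castSucc)) i (e c) := by
          intro c
          funext j
          by_cases hj : j = i
          · subst hj; simp
          · have : (j.castSucc : Fin 4) ≠ i.castSucc := fun h => hj (Fin.castSucc_injective _ h)
            rw [update_of_ne this, update_of_ne hj]
        have h2 : ∀ c : X, update t i.castSucc c (Fin.last 3) = t (Fin.last 3) := by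
          intro c
          rw [update_of_ne (Fin.castSucc_lt_last i).ne']
        rw [h1, h2] at ha hb
        exact Subtype.ext (e.injective (hH.1 i _ _ (ha.trans hb.symm)))
    have := Fintype.card_le_of_injective f hinj
    rw [Fintype.card_subtype, Fintype.card_fin] at this
    exact this
  obtain ⟨L, hL, hLF⟩ := hc F hF
  -- the point of the cube above `x`
  let pt : (Fin 3 → Fin n) → Fin n → (Fin 4 → X) := fun x a =>
    Fin.snoc (α := fun _ => X) (fun i => e.symm (x i)) (e.symm a)
  have hpt1 : ∀ x a, pt x a (Fin.last 3) = e.symm a := by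
    intro x a
    exact Fin.snoc_last (α := fun _ => X) _ _
  have hpt2 : ∀ x a (j : Fin 3), pt x a j.castSucc = e.symm (x j) := by
    intro x a j
    exact Fin.snoc_castSucc (α := fun _ => X) _ _ _
  have hpt_last : ∀ x a c, update (pt x a) (Fin.last 3) c = pt x (e c) := by
    intro x a c
    simp only [pt, Fin.update_snoc_last, Equiv.symm_apply_apply]
  have hpt_cast : ∀ (x : Fin 3 → Fin n) a (i : Fin 3) c,
      update (pt x a) i.castSucc c = pt (update x i (e c)) a := by
    intro x a i c
    funext j
    induction j using Fin.lastCases with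
    | last => rw [update_of_ne (Fin.castSucc_lt_last i).ne', hpt1, hpt1]
    | cast j =>
      by_cases hj : j = i
      · subst hj
        rw [update_self, hpt2, update_self, Equiv.symm_apply_apply]
      · have : (j.castSucc : Fin 4) ≠ i.castSucc := fun h => hj (Fin.castSucc_injective _ h)
        rw [update_of_ne this, hpt2, hpt2, update_of_ne hj]
  have hnew : ∀ x : Fin 3 → Fin n, ∃ a : Fin n, pt x a ∈ L := by
    intro x
    obtain ⟨c, hc, -⟩ := hL (Fin.last 3) (pt x (x 0))
    simp only [hpt_last] at hc
    exact ⟨e c, hc⟩
  choose new hnew using hnew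
  have huniq : ∀ (i : Fin 3) (x : Fin 3 → Fin n) (s a b : Fin n), pt (update x i a) s ∈ L →
      pt (update x i b) s ∈ L → a = b := by
    intro i x s a b ha hb
    have h := (hL i.castSucc (pt x s)).unique (y₁ := e.symm a) (y₂ := e.symm b)
      (by rw [hpt_cast]; simpa using ha) (by rw [hpt_cast]; simpa using hb)
    exact e.symm.injective h
  refine ⟨fun x => Fin.snoc (α := fun _ => Fin n) (H x) (new x), ⟨?_, ?_⟩, ?_⟩
  · intro i x t
    induction t using Fin.lastCases with
    | last =>
      intro a b hab
      simp only [Fin.snoc_last] at hab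
      have ha := hnew (update x i a)
      have hb := hnew (update x i b)
      rw [← hab] at hb
      exact huniq i x _ a b ha hb
    | cast t =>
      simp only [Fin.snoc_castSucc]
      exact hH.1 i x t
  · intro x
    rw [Fin.snoc_injective_iff]
    refine ⟨hH.2 x, ?_⟩
    rintro ⟨t, ht⟩
    refine hLF _ (hnew x) ?_
    refine mem_filter.2 ⟨mem_univ _, t, ?_⟩
    simp only [hpt1, hpt2, Equiv.apply_symm_apply]
    exact ht
  · intro x t
    simp only [Fin.snoc_castSucc]

/-- **The conjecture of Casselgren and Pham**: there is `γ > 0` such that `NE_4(n) ≥ γ n` for every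
`n ≥ 5`. -/
theorem result : ∃ γ : ℝ, 0 < γ ∧ ∀ n : ℕ, 5 ≤ n → ∀ k : ℕ, NonExt4 n k → γ * n ≤ k := by
  obtain ⟨M, N, hM, h⟩ := exists_cube_all
  refine ⟨1 / (M + N : ℝ), by positivity, ?_⟩
  intro n hn k hk
  by_contra hlt
  push Not at hlt
  obtain ⟨hk1, hkn, H, hH, hext⟩ := hk
  have hMN : (0 : ℝ) < (M + N : ℝ) := by positivity
  have h1 : (k : ℝ) * (M + N) < n := by
    have := mul_lt_mul_of_pos_right hlt hMN
    have e : 1 / (M + N : ℝ) * n * (M + N) = n := by field_simp
    rwa [e] at this
  have h2 : k * (M + N) < n := by exact_mod_cast h1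
  have h3 : N ≤ n := by
    have : N ≤ k * (M + N) := by nlinarith
    omega
  have h4 : M * k < n := by nlinarith
  obtain ⟨X, _, _, hX, hc⟩ := h n h3 k h4
  exact hext (extend_of_cube hX hc H hH)

end Pool.Agent.Results.MP_7580b0_co.LinearLowerBound
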